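import Mathlib
import Pool.Agent.H72.BF.Targets4

/-!
# Filtered integrality: closure properties (MP_3cf473_nt, module FIA)
-/

open Finset Polynomial

namespace Pool.Agent.H4.BF

open Pool.Agent.H72.BF

section
variable {K F : Type} [Field K] [Field F] [Algebra K F] {r : ℕ}

/-- the Rees ring -/
def Rees (t : Fin r → F) : Subring F[X] where
  carrier := {f | ∀ m, ∃ p : MvPolynomial (Fin r) K, p.totalDegree ≤ m ∧ f.coeff m = MvPolynomial.aeval t p}
  mul_mem' := by
    intro f g hf hg m
    choose p hp hp' using hf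
    choose q hq hq' using hg
    refine ⟨∑ x ∈ antidiagonal m, p x.1 * q x.2, ?_, ?_⟩
    · refine MvPolynomial.totalDegree_finsetSum_le fun x hx => ?_
      refine (MvPolynomial.totalDegree_mul _ _).trans ?_
      have := mem_antidiagonal.1 hx
      have h1 := hp x.1
      have h2 := hq x.2
      omega
    · rw [Polynomial.coeff_mul, map_sum]
      refine Finset.sum_congr rfl fun x _ => ?_
      rw [map_mul, hp', hq']
  one_mem' := by
    intro m
    by_cases hm : m = 0
    · exact ⟨1, by simp, by simp [hm]⟩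
    · exact ⟨0, by simp, by rw [Polynomial.coeff_one, if_neg hm, map_zero]⟩
  add_mem' := by
    intro f g hf hg m
    obtain ⟨p, hp, hp'⟩ := hf m
    obtain ⟨q, hq, hq'⟩ := hg m
    exact ⟨p + q, (MvPolynomial.totalDegree_add _ _).trans (max_le hp hq), by
      rw [Polynomial.coeff_add, hp', hq', map_add]⟩
  zero_mem' := fun m => ⟨0, by simp, by simp⟩
  neg_mem' := by
    intro f hf m
    obtain ⟨p, hp, hp'⟩ := hf m
    exact ⟨-p, by rwa [MvPolynomial.totalDegree_neg], by rw [Polynomial.coeff_neg, hp', map_neg]⟩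

theorem mono_mem (t : Fin r → F) {m : ℕ} {p : MvPolynomial (Fin r) K} (hp : p.totalDegree ≤ m) :
    C (MvPolynomial.aeval t p) * X ^ m ∈ Rees (K := K) t := by
  intro n
  rw [Polynomial.coeff_C_mul_X_pow]
  by_cases h : n = m
  · rw [if_pos h, h]; exact ⟨p, hp, rfl⟩
  · rw [if_neg h]; exact ⟨0, by simp, by simp⟩

theorem fint_iff (t : Fin r → F) (E : ℕ) (z : F) :
    FInt K t E z ↔ IsIntegral (Rees (K := K) t) (C z * X ^ E : F[X]) := by
  constructor
  · rintro ⟨e, c, hc0, hc, hsum⟩
    set ρ : ℕ → Rees (K := K) t := fun i => ⟨C (MvPolynomial.aeval t (c i)) * X ^ (E * i), mono_mem t (hc i)⟩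
      with hρ
    have hρ0 : ρ 0 = 1 := by
      apply Subtype.ext
      simp only [ρ, hc0, map_one, mul_zero, pow_zero, mul_one]
      rfl
    set Q : (Rees (K := K) t)[X] := ∑ i ∈ range e, C (ρ (i + 1)) * X ^ (e - (i + 1)) with hQ
    have hdeg : Q.degree < e := by
      rw [Polynomial.degree_lt_iff_coeff_zero]
      intro m hm
      rw [hQ, Polynomial.finsetSum_coeff]
      refine Finset.sum_eq_zero fun i hi => ?_
      rw [Polynomial.coeff_C_mul_X_pow, if_neg]
      have := mem_range.1 hi
      omega
    refine ⟨X ^ e + Q, Polynomial.monic_X_pow_add hdeg, ?_⟩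
    have h1 : ∀ i, algebraMap (Rees (K := K) t) F[X] (ρ i) = C (MvPolynomial.aeval t (c i)) * X ^ (E * i) :=
      fun i => rfl
    rw [Polynomial.eval₂_add, Polynomial.eval₂_X_pow, hQ, Polynomial.eval₂_finsetSum]
    have h2 : ∀ i ∈ range e, Polynomial.eval₂ (algebraMap (Rees (K := K) t) F[X]) (C z * X ^ E)
        (C (ρ (i + 1)) * X ^ (e - (i + 1))) = C (MvPolynomial.aeval t (c (i + 1)) * z ^ (e - (i + 1))) * X ^ (E * e) := by
      intro i hi
      have hi' := mem_range.1 hi
      rw [Polynomial.eval₂_mul, Polynomial.eval₂_C, Polynomial.eval₂_X_pow, h1, mul_pow, ← pow_mul, C_mul, C_pow]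
      have e1 : E * e = E * (i + 1) + E * (e - (i + 1)) := by
        rw [← mul_add]; congr 1; omega
      rw [e1, pow_add]
      ring
    rw [Finset.sum_congr rfl h2, mul_pow, ← pow_mul, ← Finset.sum_mul, ← C_pow, ← add_mul]
    have h3 : C (z ^ e) + ∑ i ∈ range e, C (MvPolynomial.aeval t (c (i + 1)) * z ^ (e - (i + 1)))
        = C (∑ i ∈ range (e + 1), MvPolynomial.aeval t (c i) * z ^ (e - i)) := by
      rw [Finset.sum_range_succ', hc0, map_one, one_mul, Nat.sub_zero, map_add, map_sum, add_comm]
    rw [h3, hsum, map_zero, zero_mul]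
  · rintro ⟨P, hP, hev⟩
    set e := P.natDegree with he
    have hc : ∀ j : ℕ, ∃ p : MvPolynomial (Fin r) K, p.totalDegree ≤ E * j ∧
        ((P.coeff (e - j) : Rees (K := K) t) : F[X]).coeff (E * j) = MvPolynomial.aeval t p := fun j =>
      (P.coeff (e - j)).2 (E * j)
    choose p hp hp' using hc
    refine ⟨e, fun j => if j = 0 then 1 else p j, by simp, fun j => ?_, ?_⟩
    · beta_reduce
      split_ifs with hj
      · simp
      · exact hp j
    · have h1 := congrArg (fun f : F[X] => f.coeff (E * e)) hev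
      simp only [Polynomial.coeff_zero] at h1
      rw [Polynomial.eval₂_eq_sum_range, Polynomial.finsetSum_coeff] at h1
      rw [← h1, ← Finset.sum_range_reflect]
      refine Finset.sum_congr rfl fun i hi => ?_
      have hi' : i ≤ e := by have := mem_range.1 hi; omega
      have e0 : e + 1 - 1 - i = e - i := by omega
      have e1 : e - (e - i) = i := by omega
      rw [e0, e1]
      have e2 : E * e = E * (e - i) + E * i := by
        rw [← mul_add]; congr 1; omega
      have e3 : (algebraMap (Rees (K := K) t) F[X] (P.coeff i) * (C z * X ^ E) ^ i)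
          = (C (z ^ i) * ((P.coeff i : Rees (K := K) t) : F[X])) * X ^ (E * i) := by
        rw [mul_pow, ← pow_mul, C_pow]
        show ((P.coeff i : Rees (K := K) t) : F[X]) * _ = _
        ring
      rw [e3, e2, Polynomial.coeff_mul_X_pow, Polynomial.coeff_C_mul]
      beta_reduce
      split_ifs with hj
      · have hie : i = e := by omega
        rw [hj, hie, he, hP.coeff_natDegree]
        simp
      · rw [← hp' (e - i), e1, mul_comm]

theorem fia : T_FIA := by
  intro K F _ _ _ r t
  refine ⟨fun p E hp => ?_, fun E E' z hE hz => ?_, fun E z z' hz hz' => ?_, fun E E' z z' hz hz' => ?_⟩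
  · refine ⟨1, fun i => if i = 0 then 1 else if i = 1 then -p else 0, by simp, fun i => ?_, ?_⟩
    · beta_reduce
      split_ifs with h1 h2
      · simp
      · rw [MvPolynomial.totalDegree_neg, h2, mul_one]; exact hp
      · simp
    · rw [Finset.sum_range_succ, Finset.sum_range_one]
      simp
  · obtain ⟨e, c, h0, h1, h2⟩ := hz
    exact ⟨e, c, h0, fun i => (h1 i).trans (Nat.mul_le_mul_right _ hE), h2⟩
  · rw [fint_iff] at hz hz' ⊢
    have := hz.add hz'
    rwa [← add_mul, ← C_add] at this
  · rw [fint_iff] at hz hz' ⊢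
    have h1 := hz.mul hz'
    have h2 : (C z * X ^ E * (C z' * X ^ E') : F[X]) = C (z * z') * X ^ (E + E') := by
      rw [C_mul, pow_add]; ring
    rwa [h2] at h1

end

end Pool.Agent.H4.BF
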