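import Mathlib
import Pool.Agent.H72.BF.Targets4
import Pool.Agent.H4.BF.FIA

/-!
# Filtered integral elements: the minimal polynomial (MP_3cf473_nt, module FIE)
-/

open Finset Polynomial

namespace Pool.Agent.H4.BF

open Pool.Agent.H72.BF

section
variable {R : Type} [CommRing R]

/-- the monic polynomial with given coefficients -/
noncomputable def mkP (e : ℕ) (c : ℕ → R) : R[X] := ∑ i ∈ range (e + 1), C (c i) * X ^ (e - i)

theorem mkP_monic [Nontrivial R] (e : ℕ) (c : ℕ → R) (h0 : c 0 = 1) : (mkP e c).Monic := by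
  unfold mkP
  rw [Finset.sum_range_succ', h0, C_1, one_mul, Nat.sub_zero, add_comm]
  refine Polynomial.monic_X_pow_add ?_
  rw [Polynomial.degree_lt_iff_coeff_zero]
  intro m hm
  rw [Polynomial.finsetSum_coeff]
  refine Finset.sum_eq_zero fun i hi => ?_
  rw [Polynomial.coeff_C_mul_X_pow, if_neg]
  have := mem_range.1 hi
  omega

theorem mkP_eval₂ {S : Type} [CommRing S] (f : R →+* S) (x : S) (e : ℕ) (c : ℕ → R) :
    (mkP e c).eval₂ f x = ∑ i ∈ range (e + 1), f (c i) * x ^ (e - i) := by
  unfold mkP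
  rw [Polynomial.eval₂_finsetSum]
  refine Finset.sum_congr rfl fun i _ => ?_
  rw [Polynomial.eval₂_mul, Polynomial.eval₂_C, Polynomial.eval₂_X_pow]

end

section
variable {K F : Type} [Field K] [Field F] [Algebra K F] {r : ℕ}

theorem deg_le {e E : ℕ} {c : ℕ → MvPolynomial (Fin r) K} (h0 : c 0 = 1) (hc : ∀ i, (c i).totalDegree ≤ E * i)
    {p : MvPolynomial (Fin r) K} (hs : ∑ i ∈ range (e + 1), c i * p ^ (e - i) = 0) : p.totalDegree ≤ E := by
  by_contra hlt
  push Not at hlt
  have hp0 : p ≠ 0 := fun h => by rw [h] at hlt; simp at hlt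
  have hpow : ∀ k : ℕ, (p ^ k).totalDegree = k * p.totalDegree := by
    intro k
    induction k with
    | zero => simp
    | succ k ih =>
      rw [pow_succ, MvPolynomial.totalDegree_mul_of_isDomain (pow_ne_zero k hp0) hp0, ih]
      ring
  rw [Finset.sum_range_succ', h0, one_mul, Nat.sub_zero] at hs
  rcases Nat.eq_zero_or_pos e with he | he
  · subst he
    simp at hs
  have h1 : p ^ e = - ∑ i ∈ range e, c (i + 1) * p ^ (e - (i + 1)) := by
    rw [eq_neg_iff_add_eq_zero, add_comm]; exact hs
  have h2 : (p ^ e).totalDegree ≤ e * p.totalDegree - 1 := by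
    rw [h1, MvPolynomial.totalDegree_neg]
    refine MvPolynomial.totalDegree_finsetSum_le fun i hi => ?_
    refine (MvPolynomial.totalDegree_mul _ _).trans ?_
    rw [hpow]
    have h3 := hc (i + 1)
    have hi' := mem_range.1 hi
    have h4 : E * (i + 1) + (e - (i + 1)) * p.totalDegree < e * p.totalDegree := by
      have h5 : E * (i + 1) < p.totalDegree * (i + 1) := Nat.mul_lt_mul_of_pos_right hlt (Nat.succ_pos i)
      have h6 : p.totalDegree * (i + 1) + (e - (i + 1)) * p.totalDegree = e * p.totalDegree := by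
        rw [mul_comm p.totalDegree, ← add_mul]; congr 1; omega
      omega
    omega
  rw [hpow] at h2
  have h3 : 0 < e * p.totalDegree := Nat.mul_pos he (by omega)
  omega

theorem fie1 {t : Fin r → F} (ht : AlgebraicIndependent K t) {E : ℕ} {z : F} (hz : z ∈ EE' K t)
    (hint : FInt K t E z) : ∃ p : MvPolynomial (Fin r) K, p.totalDegree ≤ E ∧ z = MvPolynomial.aeval t p := by
  obtain ⟨e, c, h0, hc, hs⟩ := hint
  obtain ⟨a, b, hab⟩ := (IntermediateField.mem_adjoin_range_iff K t z).1 hz
  have hinj : Function.Injective (MvPolynomial.aeval t : MvPolynomial (Fin r) K →ₐ[K] F) := ht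
  set φ : FractionRing (MvPolynomial (Fin r) K) →+* F :=
    IsFractionRing.lift (A := MvPolynomial (Fin r) K) (K := FractionRing (MvPolynomial (Fin r) K)) (L := F)
      (g := (MvPolynomial.aeval t : MvPolynomial (Fin r) K →ₐ[K] F).toRingHom) hinj with hφ
  have hφa : ∀ p : MvPolynomial (Fin r) K, φ (algebraMap _ _ p) = MvPolynomial.aeval t p := fun p =>
    IsFractionRing.lift_algebraMap hinj p
  set ζ : FractionRing (MvPolynomial (Fin r) K) := algebraMap _ _ a / algebraMap _ _ b with hζ
  have hφζ : φ ζ = z := by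
    rw [hζ, map_div₀, hφa, hφa, hab]
  have hφinj : Function.Injective φ := φ.injective
  have heq : ∑ i ∈ range (e + 1), algebraMap _ (FractionRing (MvPolynomial (Fin r) K)) (c i) * ζ ^ (e - i) = 0 := by
    apply hφinj
    rw [map_sum, map_zero, ← hs]
    refine Finset.sum_congr rfl fun i _ => ?_
    rw [map_mul, map_pow, hφa, hφζ]
  have hζint : IsIntegral (MvPolynomial (Fin r) K) ζ :=
    ⟨mkP e c, mkP_monic e c h0, by rw [mkP_eval₂]; exact heq⟩
  obtain ⟨p, hp⟩ := IsIntegrallyClosed.isIntegral_iff.1 hζint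
  refine ⟨p, ?_, ?_⟩
  · refine deg_le (e := e) h0 hc ?_
    apply IsFractionRing.injective (MvPolynomial (Fin r) K) (FractionRing (MvPolynomial (Fin r) K))
    rw [map_sum, map_zero, ← heq]
    refine Finset.sum_congr rfl fun i _ => ?_
    rw [map_mul, map_pow, hp]
  · rw [← hφζ, ← hp, hφa]

theorem fint_prod {t : Fin r → F} {E : ℕ} (s : Multiset F) (hs : ∀ x ∈ s, FInt K t E x) :
    FInt K t (E * s.card) s.prod := by
  induction s using Multiset.induction_on with
  | empty =>
    have := (fia K F r t).1 1 (E * 0) (by simp)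
    simpa using this
  | cons a s ih =>
    rw [Multiset.prod_cons, Multiset.card_cons, mul_add, mul_one, add_comm]
    exact (fia K F r t).2.2.2 E (E * s.card) a s.prod (hs a (Multiset.mem_cons_self a s))
      (ih fun x hx => hs x (Multiset.mem_cons_of_mem hx))

theorem fint_sum {t : Fin r → F} {E : ℕ} (s : Multiset F) (hs : ∀ x ∈ s, FInt K t E x) :
    FInt K t E s.sum := by
  induction s using Multiset.induction_on with
  | empty =>
    have := (fia K F r t).1 0 E (by simp)
    simpa using this
  | cons a s ih =>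
    rw [Multiset.sum_cons]
    exact (fia K F r t).2.2.1 E a s.sum (hs a (Multiset.mem_cons_self a s))
      (ih fun x hx => hs x (Multiset.mem_cons_of_mem hx))

theorem fint_esymm {t : Fin r → F} {E : ℕ} (s : Multiset F) (hs : ∀ x ∈ s, FInt K t E x) (i : ℕ) :
    FInt K t (E * i) (s.esymm i) := by
  unfold Multiset.esymm
  refine fint_sum _ fun x hx => ?_
  obtain ⟨u, hu, rfl⟩ := Multiset.mem_map.1 hx
  obtain ⟨hus, huc⟩ := Multiset.mem_powersetCard.1 hu
  have := fint_prod u fun x hx => hs x (Multiset.mem_of_le hus hx)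
  rwa [huc] at this

end

theorem fie : T_FIE := by
  intro K F _ _ _ _ r t ht
  refine ⟨fun E z hz hint => fie1 ht hz hint, fun E z hint => ?_⟩
  obtain ⟨e, c, h0, hc, hs⟩ := hint
  set L := EE' K t with hL
  set Ω := AlgebraicClosure F with hΩ
  set t' : Fin r → Ω := algebraMap F Ω ∘ t with ht'
  have hae : ∀ p : MvPolynomial (Fin r) K, MvPolynomial.aeval t' p = algebraMap F Ω (MvPolynomial.aeval t p) :=
    fun p => MvPolynomial.aeval_algebraMap_apply Ω t p
  have hti : AlgebraicIndependent K t' := by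
    intro p q hpq
    rw [hae, hae] at hpq
    exact ht ((algebraMap F Ω).injective hpq)
  have hmem : ∀ i, MvPolynomial.aeval t (c i) ∈ L := fun i => by
    rw [hL]
    exact (IntermediateField.mem_adjoin_range_iff K t _).2 ⟨c i, 1, by simp⟩
  set cL : ℕ → L := fun i => ⟨MvPolynomial.aeval t (c i), hmem i⟩ with hcL
  have hcL0 : cL 0 = 1 := Subtype.ext (by simp [cL, h0])
  have hPL0 : aeval z (mkP e cL) = 0 := by
    rw [Polynomial.aeval_def, mkP_eval₂]
    exact hs
  have hzint : IsIntegral L z := ⟨mkP e cL, mkP_monic e cL hcL0, hPL0⟩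
  set q := minpoly L z with hq
  have hqm : q.Monic := minpoly.monic hzint
  have hqd : q ∣ mkP e cL := minpoly.dvd L z hPL0
  set ψ : L →+* Ω := (algebraMap F Ω).comp (algebraMap L F) with hψ
  set q' := q.map ψ with hq'
  have hq'm : q'.Monic := hqm.map ψ
  have hnd : q'.natDegree = q.natDegree := hqm.natDegree_map ψ
  have hroots : q'.roots.card = q'.natDegree := (Polynomial.splits_iff_card_roots.1 (IsAlgClosed.splits q'))
  have hrt : ∀ w ∈ q'.roots, FInt K t' E w := by
    intro w hw
    have h1 : q'.eval w = 0 := Polynomial.isRoot_of_mem_roots hw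
    have h2 : (mkP e cL).eval₂ ψ w = 0 := by
      obtain ⟨s, hs'⟩ := hqd
      rw [hs', Polynomial.eval₂_mul]
      rw [hq', Polynomial.eval_map] at h1
      rw [h1, zero_mul]
    rw [mkP_eval₂] at h2
    refine ⟨e, c, h0, hc, ?_⟩
    rw [← h2]
    refine Finset.sum_congr rfl fun i _ => ?_
    rw [hae]
    rfl
  have hcoef : ∀ i ≤ q.natDegree, ∃ p : MvPolynomial (Fin r) K, p.totalDegree ≤ E * i ∧
      ((q.coeff (q.natDegree - i) : L) : F) = MvPolynomial.aeval t p := by
    intro i hi
    have h1 := Polynomial.coeff_eq_esymm_roots_of_card hroots (k := q'.natDegree - i) (by omega)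
    have e1 : q'.natDegree - (q'.natDegree - i) = i := by omega
    rw [e1, hq'm.leadingCoeff, one_mul] at h1
    have h2 : FInt K t' (E * i) (q'.coeff (q'.natDegree - i)) := by
      rw [h1]
      have h3 := (fia K Ω r t').2.2.2 0 (E * i) ((-1) ^ i) (q'.roots.esymm i)
        (by
          have := (fia K Ω r t').1 ((-1) ^ i) 0 (by
            refine (MvPolynomial.totalDegree_pow _ _).trans ?_
            rw [MvPolynomial.totalDegree_neg, MvPolynomial.totalDegree_one, mul_zero])
          simpa using this)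
        (fint_esymm _ hrt i)
      rwa [zero_add] at h3
    have h4 : q'.coeff (q'.natDegree - i) = algebraMap F Ω ((q.coeff (q.natDegree - i) : L) : F) := by
      rw [hq', Polynomial.coeff_map, ← hq', hnd]
      rfl
    rw [h4] at h2
    have h5 : algebraMap F Ω ((q.coeff (q.natDegree - i) : L) : F) ∈ EE' K t' := by
      have h6 : ((q.coeff (q.natDegree - i) : L) : F) ∈ EE' K t := (q.coeff (q.natDegree - i)).2
      obtain ⟨a, b, hab⟩ := (IntermediateField.mem_adjoin_range_iff K t _).1 h6
      refine (IntermediateField.mem_adjoin_range_iff K t' _).2 ⟨a, b, ?_⟩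
      rw [hae, hae, hab, map_div₀]
    obtain ⟨p, hp, hp'⟩ := fie1 hti h5 h2
    refine ⟨p, hp, (algebraMap F Ω).injective ?_⟩
    rw [hp', hae]
  choose! p hp hp' using hcoef
  refine ⟨fun i => if i = 0 then 1 else if i ≤ q.natDegree then p i else 0, by simp, fun i => ?_, fun i hi => ?_⟩
  · beta_reduce
    split_ifs with h1 h2
    · simp
    · exact hp i h2
    · simp
  · beta_reduce
    split_ifs with h1
    · rw [h1, Nat.sub_zero, hqm.coeff_natDegree]
      simp
    · exact hp' i hi

end Pool.Agent.H4.BF
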