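import Mathlib
import Pool.Agent.H72.BF.Targets4
import Pool.Agent.H4.BF.FIE

/-!
# Differences of elements in a relation (MP_3cf473_nt, module CXR)
-/

open Finset Polynomial

namespace Pool.Agent.H4.BF

open Pool.Agent.H72.BF

section
variable {K F : Type} [Field K] [Field F] [Algebra K F] {r : ℕ}

/-- the relation polynomial -/
noncomputable def relQ (n : ℕ) (c : ℕ → MvPolynomial (Fin r) K) (w : MvPolynomial (Fin r) K) :
    MvPolynomial (Fin (r + 1)) K :=
  ∑ i ∈ range (n + 1), MvPolynomial.rename Fin.castSucc (c i * w ^ (n - i)) *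
    MvPolynomial.X (Fin.last r) ^ (n - i)

theorem relQ_aeval {S : Type} [CommRing S] [Algebra K S] (n : ℕ) (c : ℕ → MvPolynomial (Fin r) K)
    (w : MvPolynomial (Fin r) K) (t : Fin r → S) (y : S) :
    MvPolynomial.aeval (Fin.snoc t y : Fin (r + 1) → S) (relQ n c w)
      = ∑ i ∈ range (n + 1), MvPolynomial.aeval t (c i) * (MvPolynomial.aeval t w * y) ^ (n - i) := by
  unfold relQ
  rw [map_sum]
  refine Finset.sum_congr rfl fun i _ => ?_
  rw [map_mul, map_pow, MvPolynomial.aeval_X, MvPolynomial.aeval_rename, Fin.snoc_last]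
  have : (Fin.snoc t y : Fin (r + 1) → S) ∘ Fin.castSucc = t := by
    ext j; simp
  rw [this, map_mul, map_pow, mul_pow, mul_assoc]

theorem relQ_ne_zero {t : Fin r → F} (n : ℕ) (c : ℕ → MvPolynomial (Fin r) K) (h0 : c 0 = 1)
    (w : MvPolynomial (Fin r) K) (hw : MvPolynomial.aeval t w ≠ 0) : relQ n c w ≠ 0 := by
  intro hQ
  have haC : ∀ p : MvPolynomial (Fin r) K, MvPolynomial.aeval (algebraMap F F[X] ∘ t) p
      = C (MvPolynomial.aeval t p) := fun p => MvPolynomial.aeval_algebraMap_apply F[X] t p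
  have h1 := relQ_aeval (S := F[X]) n c w (algebraMap F F[X] ∘ t) X
  rw [hQ, map_zero] at h1
  have h2 := congrArg (fun f : F[X] => f.coeff n) h1
  simp only [Polynomial.coeff_zero, Polynomial.finsetSum_coeff] at h2
  rw [Finset.sum_range_succ'] at h2
  have h3 : ∀ i ∈ range n, (MvPolynomial.aeval (algebraMap F F[X] ∘ t) (c (i + 1)) *
      (MvPolynomial.aeval (algebraMap F F[X] ∘ t) w * X) ^ (n - (i + 1))).coeff n = 0 := by
    intro i hi
    rw [haC, haC, mul_pow, ← C_pow, ← mul_assoc, ← C_mul, Polynomial.coeff_C_mul_X_pow, if_neg]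
    have := mem_range.1 hi
    omega
  rw [Finset.sum_eq_zero h3, zero_add, haC, haC,
    mul_pow, ← C_pow, ← mul_assoc, ← C_mul,
    Polynomial.coeff_C_mul_X_pow, h0, map_one, one_mul, Nat.sub_zero, if_pos rfl] at h2
  exact pow_ne_zero n hw h2.symm

end

theorem cxr (hRFI : T_RFI) : T_CXR := by
  intro K F _ _ _ _ r d t y y' ht hy hy'
  obtain ⟨⟨p, hp0, hpd, hpi⟩, ⟨g, hg0, hgd, hg⟩⟩ := hRFI K F r d t y ht hy
  obtain ⟨⟨p', hp0', hpd', hpi'⟩, ⟨g', hg0', hgd', hg'⟩⟩ := hRFI K F r d t y' ht hy'
  have hinj : Function.Injective (MvPolynomial.aeval t : MvPolynomial (Fin r) K →ₐ[K] F) := ht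
  set w := p * p' with hw
  have hw0 : MvPolynomial.aeval t w ≠ 0 := by
    intro h
    have h1 : w = 0 := hinj (by rw [h, map_zero])
    exact mul_ne_zero hp0 hp0' h1
  set z := MvPolynomial.aeval t w * (y - y') with hz
  have hzint : FInt K t (2 * d) z := by
    have F1 := (fia K F r t).1
    have F3 := (fia K F r t).2.2.1
    have F4 := (fia K F r t).2.2.2
    have h1 := F4 d d _ _ (F1 p' d hpd') hpi
    have h2 := F4 d d _ _ (F1 (-p) d (by rwa [MvPolynomial.totalDegree_neg])) hpi'
    have h3 := F3 _ _ _ h1 h2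
    have e : MvPolynomial.aeval t p' * (MvPolynomial.aeval t p * y) +
        MvPolynomial.aeval t (-p) * (MvPolynomial.aeval t p' * y') = z := by
      rw [hz, hw, map_mul, map_neg]; ring
    rw [e, ← two_mul] at h3
    exact h3
  -- the degree
  have hyint : IsIntegral (EE' K t) y := (isAlgebraic_iff_isIntegral.1 ⟨g, hg0, hg⟩)
  have hyint' : IsIntegral (EE' K t) y' := (isAlgebraic_iff_isIntegral.1 ⟨g', hg0', hg'⟩)
  have hdy : Module.finrank (EE' K t) (IntermediateField.adjoin (EE' K t) {y}) ≤ d := by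
    rw [IntermediateField.adjoin.finrank hyint]
    exact (Polynomial.natDegree_le_of_dvd (minpoly.dvd (EE' K t) y hg) hg0).trans hgd
  have hdy' : Module.finrank (EE' K t) (IntermediateField.adjoin (EE' K t) {y'}) ≤ d := by
    rw [IntermediateField.adjoin.finrank hyint']
    exact (Polynomial.natDegree_le_of_dvd (minpoly.dvd (EE' K t) y' hg') hg0').trans hgd'
  set E1 : IntermediateField (EE' K t) F := IntermediateField.adjoin (EE' K t) {y} with hE1
  set E2 : IntermediateField (EE' K t) F := IntermediateField.adjoin (EE' K t) {y'} with hE2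
  have : FiniteDimensional (EE' K t) E1 := IntermediateField.adjoin.finiteDimensional hyint
  have : FiniteDimensional (EE' K t) E2 := IntermediateField.adjoin.finiteDimensional hyint'
  have hsup : Module.finrank (EE' K t) (E1 ⊔ E2 : IntermediateField (EE' K t) F) ≤ d * d :=
    (IntermediateField.finrank_sup_le E1 E2).trans (Nat.mul_le_mul hdy hdy')
  have : FiniteDimensional (EE' K t) (E1 ⊔ E2 : IntermediateField (EE' K t) F) := IntermediateField.finiteDimensional_sup E1 E2
  have hwL : MvPolynomial.aeval t w ∈ (EE' K t) := by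
    exact (IntermediateField.mem_adjoin_range_iff K t _).2 ⟨w, 1, by simp⟩
  have hzmem : z ∈ (E1 ⊔ E2 : IntermediateField (EE' K t) F) := by
    rw [hz]
    refine mul_mem ?_ (sub_mem ?_ ?_)
    · exact (E1 ⊔ E2 : IntermediateField (EE' K t) F).algebraMap_mem ⟨_, hwL⟩
    · exact (le_sup_left : E1 ≤ E1 ⊔ E2) (IntermediateField.mem_adjoin_simple_self (EE' K t) y)
    · exact (le_sup_right : E2 ≤ E1 ⊔ E2) (IntermediateField.mem_adjoin_simple_self (EE' K t) y')
  have hn : (minpoly (EE' K t) z).natDegree ≤ d * d := by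
    have h1 := minpoly.natDegree_le (A := (EE' K t)) (⟨z, hzmem⟩ : (E1 ⊔ E2 : IntermediateField (EE' K t) F))
    have h2 : minpoly (EE' K t) (⟨z, hzmem⟩ : (E1 ⊔ E2 : IntermediateField (EE' K t) F)) = minpoly (EE' K t) z :=
      IntermediateField.minpoly_eq _
    rw [h2] at h1
    exact h1.trans hsup
  obtain ⟨c, hc0, hc, hcc⟩ := (fie K F r t ht).2 (2 * d) z hzint
  set n := (minpoly (EE' K t) z).natDegree with hnd
  refine ⟨relQ n c w, relQ_ne_zero n c hc0 w hw0, ?_, ?_⟩
  · unfold relQ
    refine MvPolynomial.totalDegree_finsetSum_le fun i hi => ?_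
    have hi' : i ≤ n := by have := mem_range.1 hi; omega
    refine (MvPolynomial.totalDegree_mul _ _).trans ?_
    have h1 : (MvPolynomial.rename Fin.castSucc (c i * w ^ (n - i)) :
        MvPolynomial (Fin (r + 1)) K).totalDegree ≤ 2 * d * i + (n - i) * (2 * d) := by
      refine (MvPolynomial.totalDegree_rename_le _ _).trans ((MvPolynomial.totalDegree_mul _ _).trans ?_)
      refine Nat.add_le_add (hc i) ((MvPolynomial.totalDegree_pow _ _).trans (Nat.mul_le_mul_left _ ?_))
      refine (MvPolynomial.totalDegree_mul _ _).trans ?_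
      omega
    have h2 : (MvPolynomial.X (Fin.last r) ^ (n - i) : MvPolynomial (Fin (r + 1)) K).totalDegree ≤ n - i := by
      refine (MvPolynomial.totalDegree_pow _ _).trans ?_
      rw [MvPolynomial.totalDegree_X, mul_one]
    calc _ ≤ 2 * d * i + (n - i) * (2 * d) + (n - i) := Nat.add_le_add h1 h2
      _ ≤ (2 * d + 1) * n := by
        obtain ⟨k, hk⟩ := Nat.exists_eq_add_of_le hi'
        rw [hk, Nat.add_sub_cancel_left]
        nlinarith
      _ ≤ (2 * d + 1) * d ^ 2 := by
        rw [pow_two]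
        exact Nat.mul_le_mul_left _ hn
  · rw [relQ_aeval, ← hz]
    have h1 : aeval z (minpoly (EE' K t) z) = 0 := minpoly.aeval (EE' K t) z
    rw [Polynomial.aeval_eq_sum_range, ← Finset.sum_range_reflect] at h1
    rw [← h1]
    refine Finset.sum_congr rfl fun i hi => ?_
    have hi' : i ≤ n := by have := mem_range.1 hi; omega
    have e1 : (minpoly (EE' K t) z).natDegree + 1 - 1 - i = n - i := by omega
    rw [e1, ← hcc i hi']
    rfl

end Pool.Agent.H4.BF
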