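import Mathlib
import Pool.Agent.H72.BF.Targets4

/-!
# Littlewood-Offord type lemma (MP_3cf473_nt, module LO)
-/

open Finset

namespace Pool.Agent.H4.BF

open Pool.Agent.H72.BF

theorem sum_ind {α : Type} [Fintype α] [DecidableEq α] (S : Finset α) (f : α → ℚ) :
    ∑ i ∈ S, f i = ∑ i, (if i ∈ S then f i else 0) := by
  rw [Finset.sum_ite_mem, Finset.univ_inter]

/-- real line version -/
theorem lo1 {α : Type} [Fintype α] [DecidableEq α] (v : α → ℚ) (hv : ∀ i, v i ≠ 0) (c : ℚ) :
    (univ.filter (fun J : Finset α => ∑ i ∈ J, v i = c)).card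
      ≤ (Fintype.card α).choose (Fintype.card α / 2) := by
  set N : Finset α := univ.filter (fun i => v i < 0) with hN
  have key : ∀ J : Finset α, ∑ i ∈ symmDiff J N, |v i| = ∑ i ∈ J, v i + ∑ i ∈ N, |v i| := by
    intro J
    rw [sum_ind (symmDiff J N), sum_ind J, sum_ind N, ← Finset.sum_add_distrib]
    refine Finset.sum_congr rfl fun i _ => ?_
    have hmem : i ∈ symmDiff J N ↔ (i ∈ J ∧ i ∉ N) ∨ (i ∈ N ∧ i ∉ J) := Finset.mem_symmDiff
    by_cases h1 : i ∈ J <;> by_cases h2 : i ∈ N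
    · have h3 : v i < 0 := by simpa [N] using h2
      simp [hmem, h1, h2, abs_of_neg h3]
    · have h3 : 0 ≤ v i := by simpa [N] using h2
      simp [hmem, h1, h2, abs_of_nonneg h3]
    · simp [hmem, h1, h2]
    · simp [hmem, h1, h2]
  set 𝒜 : Finset (Finset α) := univ.filter (fun J : Finset α => ∑ i ∈ J, |v i| = c + ∑ i ∈ N, |v i|) with h𝒜
  have hanti : IsAntichain (· ⊆ ·) (SetLike.coe 𝒜) := by
    intro J hJ J' hJ' hne hsub
    have h1 : ∑ i ∈ J, |v i| = c + ∑ i ∈ N, |v i| := by simpa [𝒜] using hJ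
    have h2 : ∑ i ∈ J', |v i| = c + ∑ i ∈ N, |v i| := by simpa [𝒜] using hJ'
    have hss : J ⊂ J' := lt_of_le_of_ne hsub hne
    obtain ⟨i, hi', hi⟩ := Finset.exists_of_ssubset hss
    have h3 : ∑ i ∈ J, |v i| < ∑ i ∈ J', |v i| :=
      Finset.sum_lt_sum_of_subset hsub hi' hi (abs_pos.2 (hv i)) (fun j _ _ => abs_nonneg _)
    linarith
  refine le_trans (Finset.card_le_card_of_injOn (fun J => symmDiff J N) ?_ ?_) (IsAntichain.sperner hanti)
  · intro J hJ
    have h1 : ∑ i ∈ J, v i = c := by simpa using hJ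
    have h2 := key J
    rw [h1] at h2
    simpa [𝒜] using h2
  · intro J _ J' _ h
    exact symmDiff_left_injective N h

/-- vector version: number of subsets with sum zero -/
theorem lo2 {A : Type} [AddCommGroup A] [Module ℚ A] [DecidableEq A] {k h : ℕ} (δ : Fin k → A) (T : Finset (Fin k))
    (hT : T.card = h) (h0 : ∀ i ∈ T, δ i ≠ 0) :
    ((univ : Finset (Finset (Fin k))).filter (fun I => ∑ i ∈ I, δ i = 0)).card
      ≤ h.choose (h / 2) * 2 ^ (k - h) := by
  classical
  obtain ⟨f, hf⟩ := Module.exists_dual_forall_apply_ne_zero (K := ℚ) (fun i : T => δ i) (fun i => h0 i i.2)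
  set s := (univ : Finset (Finset (Fin k))).filter (fun I => ∑ i ∈ I, δ i = 0) with hs
  have h1 : s.card ≤ h.choose (h / 2) * (s.image (fun I => I \ T)).card := by
    refine Finset.card_le_mul_card_image s _ fun a _ => ?_
    have h2 := lo1 (fun i : T => f (δ i)) hf (- ∑ i ∈ a, f (δ i))
    rw [Fintype.card_coe, hT] at h2
    refine le_trans (Finset.card_le_card_of_injOn (fun I => I.subtype (· ∈ T)) ?_ ?_) h2
    · intro I hI
      have hI' : I ∈ s ∧ I \ T = a := by simpa using hI
      have h3 : ∑ i ∈ I, δ i = 0 := by simpa [s] using hI'.1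
      have h4 : ∑ i ∈ I, f (δ i) = 0 := by rw [← map_sum, h3, map_zero]
      have h5 : ∑ i ∈ I.subtype (· ∈ T), f (δ (i : Fin k)) = ∑ i ∈ I ∩ T, f (δ i) := by
        rw [Finset.sum_subtype_eq_sum_filter (s := I) (f := fun i => f (δ i)) (p := (· ∈ T))]
        congr 1
      have h6 : ∑ i ∈ I, f (δ i) = ∑ i ∈ I ∩ T, f (δ i) + ∑ i ∈ I \ T, f (δ i) := by
        exact (Finset.sum_inter_add_sum_sdiff I T _).symm
      simp only [Finset.coe_filter, Set.mem_ofPred_eq, mem_univ, true_and]
      rw [h5, ← hI'.2]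
      linarith
    · intro I hI I' hI' hII
      have h3 : I \ T = a := by
        have : I ∈ s ∧ I \ T = a := by simpa using hI
        exact this.2
      have h4 : I' \ T = a := by
        have : I' ∈ s ∧ I' \ T = a := by simpa using hI'
        exact this.2
      ext i
      by_cases hi : i ∈ T
      · have h5 : (⟨i, hi⟩ : T) ∈ I.subtype (· ∈ T) ↔ (⟨i, hi⟩ : T) ∈ I'.subtype (· ∈ T) := by
          simp only at hII
          rw [hII]
        simpa using h5
      · have h5 : i ∈ I \ T ↔ i ∈ I' \ T := by rw [h3, h4]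
        simpa [hi] using h5
  refine h1.trans (Nat.mul_le_mul_left _ ?_)
  have h2 : s.image (fun I => I \ T) ⊆ (univ \ T).powerset := by
    intro a ha
    obtain ⟨I, -, rfl⟩ := Finset.mem_image.1 ha
    exact Finset.mem_powerset.2 (Finset.sdiff_subset_sdiff (Finset.subset_univ _) le_rfl)
  refine (Finset.card_le_card h2).trans ?_
  rw [Finset.card_powerset, Finset.card_sdiff_of_subset (Finset.subset_univ _), hT, Finset.card_univ, Fintype.card_fin]

theorem cb_bound (n : ℕ) : n.centralBinom ^ 2 * (2 * n + 1) ≤ 16 ^ n := by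
  induction n with
  | zero => simp
  | succ n ih =>
    have h1 := Nat.succ_mul_centralBinom_succ n
    have h2 : (n + 1) ^ 2 * ((n + 1).centralBinom ^ 2 * (2 * (n + 1) + 1)) ≤ (n + 1) ^ 2 * 16 ^ (n + 1) := by
      have e1 : (n + 1) ^ 2 * ((n + 1).centralBinom ^ 2 * (2 * (n + 1) + 1))
          = ((n + 1) * (n + 1).centralBinom) ^ 2 * (2 * n + 3) := by ring
      rw [e1, h1]
      calc (2 * (2 * n + 1) * n.centralBinom) ^ 2 * (2 * n + 3)
          = 4 * ((2 * n + 1) * (2 * n + 3)) * (n.centralBinom ^ 2 * (2 * n + 1)) := by ring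
        _ ≤ 4 * (4 * (n + 1) ^ 2) * 16 ^ n := by
          refine Nat.mul_le_mul ?_ ih
          nlinarith
        _ = (n + 1) ^ 2 * 16 ^ (n + 1) := by ring
    exact Nat.le_of_mul_le_mul_left h2 (by positivity)

theorem lo : T_LO := by
  intro s
  refine ⟨2 * s ^ 2, ?_⟩
  intro A _ _ k δ hδ
  classical
  set n := s ^ 2 with hn
  rcases Nat.eq_zero_or_pos s with hs | hs
  · subst hs
    exact ⟨∅, fun p => p.elim0⟩
  have hcb : s * n.centralBinom < 4 ^ n := by
    have h1 := cb_bound n
    have h2 : 0 < n.centralBinom := Nat.centralBinom_pos n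
    have h3 : (s * n.centralBinom) ^ 2 < (4 ^ n) ^ 2 := by
      calc (s * n.centralBinom) ^ 2 = n.centralBinom ^ 2 * n := by rw [hn]; ring
        _ < n.centralBinom ^ 2 * (2 * n + 1) := by
          refine Nat.mul_lt_mul_of_pos_left (by omega) (by positivity)
        _ ≤ 16 ^ n := h1
        _ = (4 ^ n) ^ 2 := by rw [← pow_mul, mul_comm, pow_mul]; norm_num
    exact lt_of_pow_lt_pow_left₀ 2 (Nat.zero_le _) h3
  -- choose the subsets
  have hex : ∀ p, ∃ T : Finset (Fin k), T.card = 2 * n ∧ ∀ i ∈ T, δ p i ≠ 0 := by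
    intro p
    have h1 : 2 * n ≤ (univ.filter (fun i => δ p i ≠ 0)).card := by
      have h2 := hδ p
      rw [Set.ncard_eq_toFinset_card'] at h2
      have e : ({i | δ p i ≠ 0} : Set (Fin k)).toFinset = univ.filter (fun i => δ p i ≠ 0) := by
        ext i; simp
      rw [e] at h2
      exact h2
    obtain ⟨T, hT, hTc⟩ := Finset.exists_subset_card_eq h1
    exact ⟨T, hTc, fun i hi => by simpa using hT hi⟩
  choose T hTc hT0 using hex
  by_contra hcon
  push Not at hcon
  have hk : 2 * n ≤ k := by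
    have := (Finset.card_le_univ (T ⟨0, hs⟩))
    rw [hTc, Fintype.card_fin] at this
    exact this
  have hcover : (univ : Finset (Finset (Fin k))) ⊆ univ.biUnion (fun p : Fin s =>
      (univ : Finset (Finset (Fin k))).filter (fun I => ∑ i ∈ I, δ p i = 0)) := by
    intro I _
    obtain ⟨p, hp⟩ := hcon I
    exact Finset.mem_biUnion.2 ⟨p, mem_univ _, Finset.mem_filter.2 ⟨mem_univ _, hp⟩⟩
  have h1 := (Finset.card_le_card hcover).trans Finset.card_biUnion_le
  have h2 : ∑ p : Fin s, ((univ : Finset (Finset (Fin k))).filter (fun I => ∑ i ∈ I, δ p i = 0)).card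
      ≤ ∑ p : Fin s, n.centralBinom * 2 ^ (k - 2 * n) := by
    refine Finset.sum_le_sum fun p _ => ?_
    have h3 := lo2 (δ p) (T p) (hTc p) (hT0 p)
    rw [Nat.centralBinom_eq_two_mul_choose]
    have : 2 * n / 2 = n := by omega
    rwa [this] at h3
  have h3 := h1.trans h2
  rw [Finset.sum_const, Finset.card_univ, Finset.card_univ, Fintype.card_finset, Fintype.card_fin,
    Fintype.card_fin, smul_eq_mul, ← mul_assoc] at h3
  have h4 : 2 ^ k = 4 ^ n * 2 ^ (k - 2 * n) := by
    rw [show (4 : ℕ) = 2 ^ 2 by norm_num, ← pow_mul, ← pow_add]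
    congr 1
    omega
  rw [h4] at h3
  exact absurd h3 (not_le.2 (Nat.mul_lt_mul_of_pos_right hcb (by positivity)))

end Pool.Agent.H4.BF
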